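import Pool.Agent.MWK.Stmts

/-!
# MWK, row CHE: chains
-/

set_option autoImplicit false

namespace Pool.Agent.MWK.H89

open Pool.Agent.Helper14_MV Pool.Agent.Helper2_MV

theorem che : CheStmt := by
  intro k
  induction k with
  | zero =>
    intro w y h _
    refine ⟨[], rfl, ?_, by simp⟩
    rcases h with h | ⟨t, h, _⟩
    · intro z hz
      rw [List.mem_singleton] at hz
      rw [hz]
      exact h
    · exact h.elim
  | succ k ih =>
    intro w y h hn
    rcases h with h | ⟨t, h1, h2⟩
    · exact absurd (Dp.simple h) hn
    · obtain ⟨cs, h3, h4, h5⟩ := ih w t h1 (fun h0 => hn (Dp.step h0 h2))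
      refine ⟨t :: cs, by simp [h3], ⟨?_, h1.mem, h4⟩, ?_⟩
      · intro z hz
        rw [List.mem_singleton] at hz
        rw [hz]
        exact h2
      · intro c hc
        rcases List.mem_cons.1 hc with rfl | hc
        · exact h1
        · exact (h5 c hc).mono

end Pool.Agent.MWK.H89
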