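import Pool.Agent.MWK.StmtsN

/-!
# MWK, row NTD
-/

set_option autoImplicit false

namespace Pool.Agent.MWK.H89

open Pool.Agent.Helper14_MV Pool.Agent.Helper2_MV
open Pool.Agent.MWF (Ap gaml RR_gaml)

theorem pow_comm' {X Y : List ℕ} (c : ℕ) (hX : ∀ x ∈ X, x = c) (hY : ∀ x ∈ Y, x = c) :
    X ++ Y = Y ++ X := by
  rw [List.eq_replicate_of_mem hX, List.eq_replicate_of_mem hY, List.replicate_append_replicate,
    List.replicate_append_replicate, Nat.add_comm]

theorem filter_comm {X Y : List ℕ} {a b : ℕ} (hX : ∀ x ∈ X, x = a ∨ x = b)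
    (hY : ∀ x ∈ Y, x = a ∨ x = b) :
    (X ++ Y).filter (fun c => decide (c ≠ b)) = (Y ++ X).filter (fun c => decide (c ≠ b)) := by
  rw [List.filter_append, List.filter_append]
  apply pow_comm' a
  · intro x hx
    rw [List.mem_filter] at hx
    rcases hX x hx.1 with h | h
    · exact h
    · simp [h] at hx
  · intro x hx
    rw [List.mem_filter] at hx
    rcases hY x hx.1 with h | h
    · exact h
    · simp [h] at hx

theorem pd_swap {p X Y R : List ℕ} (hX : ∀ x ∈ X, x = 0 ∨ x = 1) (hY : ∀ x ∈ Y, x = 0 ∨ x = 1)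
    (h : PD (p ++ (X ++ (Y ++ R)))) : PD (p ++ (Y ++ (X ++ R))) := by
  obtain ⟨h1, ⟨k, hk, h2⟩, ⟨l, hl, h3⟩⟩ := h
  refine ⟨?_, ⟨k, hk, ?_⟩, ⟨l, hl, ?_⟩⟩
  · intro c hc
    apply h1
    simp only [List.mem_append] at hc ⊢
    tauto
  · rw [← h2, ← List.append_assoc Y, ← List.append_assoc X, List.filter_append,
      List.filter_append, List.filter_append (l₁ := p), List.filter_append (l₁ := X ++ Y),
      filter_comm hX hY]
  · rw [← h3, ← List.append_assoc Y, ← List.append_assoc X, List.filter_append,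
      List.filter_append, List.filter_append (l₁ := p), List.filter_append (l₁ := X ++ Y),
      filter_comm (fun x hx => (hX x hx).symm) (fun x hx => (hY x hx).symm)]

theorem pd_count {w : List ℕ} (h : PD w) : w.count 2 = 1 ∧ w.count 3 = 1 := by
  obtain ⟨-, ⟨k, hk, h2⟩, -⟩ := h
  constructor
  · have h1 : (w.filter (fun c => decide (c ≠ 1))).count 2 = w.count 2 :=
      List.count_filter (by decide)
    rw [← h1, h2]
    simp [List.count_replicate]
  · have h1 : (w.filter (fun c => decide (c ≠ 1))).count 3 = w.count 3 :=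
      List.count_filter (by decide)
    rw [← h1, h2]
    simp [List.count_replicate]

/-- a letter which occurs twice is `0` or `1` -/
theorem pd_mult {w : List ℕ} (h : PD w) {c : ℕ} (hc : 2 ≤ w.count c) : c = 0 ∨ c = 1 := by
  have h0 : c ∈ w := List.count_pos_iff.1 (by omega)
  obtain ⟨h2, h3⟩ := pd_count h
  rcases h.1 c h0 with h1 | h1 | h1 | h1
  · exact Or.inl h1
  · exact Or.inr h1
  · subst h1
    omega
  · subst h1
    omega

theorem key {A Z B : List ℕ} (h : PD (A ++ (Z ++ B))) (hZ : ∀ c ∈ Z, c = 0 ∨ c = 1)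
    (h0 : 0 ∈ Z) (h1 : 1 ∈ Z) (hA : 0 ∈ A) : False := by
  have hc3 := (pd_count h).2
  obtain ⟨-, ⟨k, hk, h2⟩, ⟨l, hl, h3⟩⟩ := h
  rw [List.filter_append, List.filter_append] at h2 h3
  have hZ2 : 2 ∉ Z := fun h => by
    rcases hZ 2 h with h | h <;> omega
  have hZ3 : 3 ∉ Z := fun h => by
    rcases hZ 3 h with h | h <;> omega
  have hz1 : 0 ∈ Z.filter (fun c => decide (c ≠ 1)) := by
    rw [List.mem_filter]; exact ⟨h0, by decide⟩
  have hz0 : 1 ∈ Z.filter (fun c => decide (c ≠ 0)) := by
    rw [List.mem_filter]; exact ⟨h1, by decide⟩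
  have ha1 : 0 ∈ A.filter (fun c => decide (c ≠ 1)) := by
    rw [List.mem_filter]; exact ⟨hA, by decide⟩
  -- `2 ∈ A`
  have hA2 : 2 ∈ A := by
    rcases hfa : A.filter (fun c => decide (c ≠ 1)) with _ | ⟨a, _ | ⟨b, A'⟩⟩
    · rw [hfa] at ha1
      exact absurd ha1 List.not_mem_nil
    · rw [hfa] at h2
      rcases hfz : Z.filter (fun c => decide (c ≠ 1)) with _ | ⟨z, Z'⟩
      · rw [hfz] at hz1
        exact absurd hz1 List.not_mem_nil
      · rw [hfz] at h2
        simp only [List.cons_append, List.nil_append, List.cons.injEq] at h2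
        have hz : z ∈ Z := by
          have : z ∈ Z.filter (fun c => decide (c ≠ 1)) := by rw [hfz]; exact List.mem_cons_self
          exact (List.mem_filter.1 this).1
        rw [h2.2.1] at hz
        exact absurd hz hZ2
    · rw [hfa] at h2
      simp only [List.cons_append, List.cons.injEq] at h2
      have hb : b ∈ A.filter (fun c => decide (c ≠ 1)) := by
        rw [hfa]; simp
      rw [h2.2.1] at hb
      exact (List.mem_filter.1 hb).1
  -- `3 ∈ B`
  have hB3 : 3 ∈ B := by
    have hl : (A.filter (fun c => decide (c ≠ 1)) ++ (Z.filter (fun c => decide (c ≠ 1)) ++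
        B.filter (fun c => decide (c ≠ 1)))).getLast? = some 3 := by
      rw [h2]
      rw [← List.cons_append, ← List.cons_append, List.getLast?_append]
      simp
    rw [List.getLast?_append_of_ne_nil] at hl
    · have h4 := List.mem_of_getLast? hl
      rw [List.mem_append] at h4
      rcases h4 with h4 | h4
      · exact absurd (List.mem_filter.1 h4).1 hZ3
      · exact (List.mem_filter.1 h4).1
    · intro h
      rw [List.append_eq_nil_iff] at h
      rw [h.1] at hz1
      exact absurd hz1 List.not_mem_nil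
  have hA3 : 3 ∉ A := by
    intro h
    rw [List.count_append, List.count_append] at hc3
    have h5 := List.count_pos_iff.2 h
    have h6 := List.count_pos_iff.2 hB3
    omega
  have ha2 : 2 ∈ A.filter (fun c => decide (c ≠ 0)) := by
    rw [List.mem_filter]; exact ⟨hA2, by decide⟩
  rcases hfa : A.filter (fun c => decide (c ≠ 0)) with _ | ⟨a, _ | ⟨b, _ | ⟨c, A'⟩⟩⟩
  · rw [hfa] at ha2
    exact absurd ha2 List.not_mem_nil
  · rw [hfa] at h3 ha2
    simp only [List.cons_append, List.cons.injEq] at h3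
    rw [h3.1, List.mem_singleton] at ha2
    omega
  · rw [hfa] at h3
    rcases hfz : Z.filter (fun c => decide (c ≠ 0)) with _ | ⟨z, Z'⟩
    · rw [hfz] at hz0
      exact absurd hz0 List.not_mem_nil
    · rw [hfz] at h3
      simp only [List.cons_append, List.nil_append, List.cons.injEq] at h3
      have hz : z ∈ Z := by
        have : z ∈ Z.filter (fun c => decide (c ≠ 0)) := by rw [hfz]; exact List.mem_cons_self
        exact (List.mem_filter.1 this).1
      rw [h3.2.2.1] at hz
      exact hZ3 hz
  · rw [hfa] at h3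
    simp only [List.cons_append, List.cons.injEq] at h3
    have hb : c ∈ A.filter (fun c => decide (c ≠ 0)) := by
      rw [hfa]; simp
    rw [h3.2.2.1] at hb
    exact hA3 (List.mem_filter.1 hb).1

theorem ntd1 (p X Y T S q : List ℕ) (h : PD (p ++ (X ++ (Y ++ (T ++ (X ++ (S ++ (Y ++ q)))))))) :
    (∀ x ∈ X, x = 0 ∨ x = 1) ∧ ∀ x ∈ Y, x = 0 ∨ x = 1 := by
  constructor
  · intro x hx
    apply pd_mult h
    have := List.count_pos_iff.2 hx
    simp only [List.count_append]
    omega
  · intro x hx
    apply pd_mult h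
    have := List.count_pos_iff.2 hx
    simp only [List.count_append]
    omega

theorem ntd2 (p X Y T S q : List ℕ) (h : PD (p ++ (Y ++ (X ++ (T ++ (X ++ (S ++ (Y ++ q)))))))) :
    (∀ x ∈ X, x = 0 ∨ x = 1) ∧ ∀ x ∈ Y, x = 0 ∨ x = 1 := by
  constructor
  · intro x hx
    apply pd_mult h
    have := List.count_pos_iff.2 hx
    simp only [List.count_append]
    omega
  · intro x hx
    apply pd_mult h
    have := List.count_pos_iff.2 hx
    simp only [List.count_append]
    omega

theorem ntd : NtdStmt := by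
  constructor
  · apply RR_gaml
    intro f p q
    have e1 : p ++ [0, 1, 2, 0, 3, 1].flatMap f ++ q
        = p ++ (f 0 ++ (f 1 ++ (f 2 ++ (f 0 ++ (f 3 ++ (f 1 ++ q)))))) := by
      simp [List.flatMap_cons, List.append_assoc]
    have e2 : p ++ [1, 0, 2, 0, 3, 1].flatMap f ++ q
        = p ++ (f 1 ++ (f 0 ++ (f 2 ++ (f 0 ++ (f 3 ++ (f 1 ++ q)))))) := by
      simp [List.flatMap_cons, List.append_assoc]
    rw [e1, e2]
    constructor
    · intro h
      obtain ⟨h1, h2⟩ := ntd1 _ _ _ _ _ _ h
      exact pd_swap h1 h2 h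
    · intro h
      obtain ⟨h1, h2⟩ := ntd2 _ _ _ _ _ _ h
      exact pd_swap h2 h1 h
  · intro f p q
    have e1 : p ++ [0, 1, 2, 0, 1].flatMap f ++ q
        = p ++ (f 0 ++ (f 1 ++ (f 2 ++ (f 0 ++ ([] ++ (f 1 ++ q)))))) := by
      simp [List.flatMap_cons, List.append_assoc]
    have e2 : p ++ [1, 0, 2, 0, 1].flatMap f ++ q
        = p ++ (f 1 ++ (f 0 ++ (f 2 ++ (f 0 ++ ([] ++ (f 1 ++ q)))))) := by
      simp [List.flatMap_cons, List.append_assoc]
    rw [e1, e2]
    intro h
    have hXY : (∀ x ∈ f 0, x = 0 ∨ x = 1) ∧ ∀ x ∈ f 1, x = 0 ∨ x = 1 := by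
      rcases h with h | h
      · exact ntd1 _ _ _ _ _ _ h
      · exact ntd2 _ _ _ _ _ _ h
    obtain ⟨hX, hY⟩ := hXY
    suffices hc : f 0 ++ f 1 = f 1 ++ f 0 by
      rw [← List.append_assoc (f 0) (f 1), hc, List.append_assoc]
    have hZ : ∀ c ∈ f 0 ++ f 1, c = 0 ∨ c = 1 := by
      intro c hc
      rcases List.mem_append.1 hc with hc | hc
      · exact hX c hc
      · exact hY c hc
    by_cases h0 : 0 ∈ f 0 ++ f 1
    · by_cases h1 : 1 ∈ f 0 ++ f 1
      · exfalso
        rcases h with h | h
        · refine key (A := p ++ (f 0 ++ (f 1 ++ f 2))) (Z := f 0 ++ f 1) (B := q) ?_ hZ h0 h1 ?_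
          · simpa [List.append_assoc] using h
          · simp only [List.mem_append] at h0 ⊢
            tauto
        · refine key (A := p ++ (f 1 ++ (f 0 ++ f 2))) (Z := f 0 ++ f 1) (B := q) ?_ hZ h0 h1 ?_
          · simpa [List.append_assoc] using h
          · simp only [List.mem_append] at h0 ⊢
            tauto
      · apply pow_comm' 0
        · intro x hx
          rcases hX x hx with h2 | h2
          · exact h2
          · exact absurd (List.mem_append_left _ (h2 ▸ hx)) h1
        · intro x hx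
          rcases hY x hx with h2 | h2
          · exact h2
          · exact absurd (List.mem_append_right _ (h2 ▸ hx)) h1
    · apply pow_comm' 1
      · intro x hx
        rcases hX x hx with h2 | h2
        · exact absurd (List.mem_append_left _ (h2 ▸ hx)) h0
        · exact h2
      · intro x hx
        rcases hY x hx with h2 | h2
        · exact absurd (List.mem_append_right _ (h2 ▸ hx)) h0
        · exact h2

end Pool.Agent.MWK.H89
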